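import Pool.Agent.TH553.ST.PW2
import Pool.Agent.TH553.ST.Ext2

set_option autoImplicit false

/-!
# The Sato-Tate law from the law modulo the centre

`K` is a number field (`K = ℚ` in the problem), `G` a compact group, for example the Sato-Tate group
`USp(2g)` of a generic curve of genus `g`, with its Haar probability measure `μ`, and `x_v ∈ G` is an
element of the class of the prime `v` of `K` (any element at the finitely many bad primes).  We compare
the Sato-Tate law, that is the equidistribution of the classes of the `x_v`, with the law modulo the centre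
`Z` of `G`, that is the equidistribution of the images of the `x_v` in `G / Z`.  For `G = USp(2g)` the centre
is `± 1`, and the law modulo the centre is the law for the polynomials `L_p(T)` up to the change of the sign
of `T`, which is the same for all quadratic twists.

If the law holds modulo the centre, then for every irreducible representation `π` of `G` of dimension at
least two `|log |L(π, 1 + iτ + ε)||` is at most `(∫ |tr π| dμ + η) log (1 / ε)`, where the integral is
less than `1`; so each local meromorphic continuation of `L(π, s)` to a point of the line `Re s = 1` is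
without zero and pole there.  By the theorem of Wiener and Ikehara and the theorem of Peter and Weyl the
law modulo the centre, meromorphic continuation of the L-functions of the representations which are not
trivial on the centre, and the mean zero of the nontrivial one-dimensional characters (there are none for
`USp(2g)`) give the law.
-/

namespace Pool.Agent.Results.MP_3da4c4_nt.AdjointReduction

open NumberField IsDedekindDomain Filter Topology MeasureTheory
open scoped ComplexConjugate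

section

variable {K : Type} [Field K] [NumberField K]

/-- The average of `φ` over the primes of `K` of norm at most `N`. -/
noncomputable def avg (φ : HeightOneSpectrum (𝓞 K) → ℂ) (N : ℕ) : ℂ :=
  (∑ᶠ v : {v : HeightOneSpectrum (𝓞 K) // Ideal.absNorm v.asIdeal ≤ N}, φ v.1) /
    (Nat.card {v : HeightOneSpectrum (𝓞 K) // Ideal.absNorm v.asIdeal ≤ N} : ℂ)

/-- The classes of the `x v` are equidistributed for `μ`. -/
def Equidistributed {G : Type} [Group G] [TopologicalSpace G] [MeasurableSpace G]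
    (x : HeightOneSpectrum (𝓞 K) → G) (μ : Measure G) : Prop :=
  ∀ f : G → ℂ, Continuous f → (∀ g h, f (h * g * h⁻¹) = f g) →
    Tendsto (avg fun v => f (x v)) atTop (𝓝 (∫ g, f g ∂μ))

/-- The classes of the images of the `x v` in the quotient of `G` by its centre are equidistributed for
the image of `μ`: the averages of `f (x v)` tend to the integral of `f` for the continuous class functions
`f` with `f (g z) = f g` for all `z` in the centre. -/
def EquidistributedModCenter {G : Type} [Group G] [TopologicalSpace G] [MeasurableSpace G]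
    (x : HeightOneSpectrum (𝓞 K) → G) (μ : Measure G) : Prop :=
  ∀ f : G → ℂ, Continuous f → (∀ g h, f (h * g * h⁻¹) = f g) →
    (∀ g, ∀ z ∈ Subgroup.center G, f (g * z) = f g) →
    Tendsto (avg fun v => f (x v)) atTop (𝓝 (∫ g, f g ∂μ))

end

section

variable {G : Type} [Group G] {n : ℕ}

/-- The character of `π`. -/
noncomputable def tr (π : G →* Matrix.unitaryGroup (Fin n) ℂ) (g : G) : ℂ :=
  (π g : Matrix (Fin n) (Fin n) ℂ).trace

/-- The unitary representation `π` is irreducible (only the scalars commute with all matrices `π g`). -/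
def IsIrreducible (π : G →* Matrix.unitaryGroup (Fin n) ℂ) : Prop :=
  ∀ A : Matrix (Fin n) (Fin n) ℂ, (∀ g, (π g : Matrix (Fin n) (Fin n) ℂ) * A = A * π g) →
    ∃ c : ℂ, A = c • (1 : Matrix (Fin n) (Fin n) ℂ)

variable {K : Type} [Field K] [NumberField K]

/-- The Euler product `L(π, s) = ∏_v det(1 - q_v^{-s} π(x_v))⁻¹`. -/
noncomputable def LFun (π : G →* Matrix.unitaryGroup (Fin n) ℂ) (x : HeightOneSpectrum (𝓞 K) → G)
    (s : ℂ) : ℂ :=
  ∏' v : HeightOneSpectrum (𝓞 K), (Matrix.det (1 - ((Ideal.absNorm v.asIdeal : ℂ) ^ (-s)) •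
    (π (x v) : Matrix (Fin n) (Fin n) ℂ)))⁻¹

/-- `log |L(π, 1 + iτ + ε)| / log (1/ε)`. -/
noncomputable def size (π : G →* Matrix.unitaryGroup (Fin n) ℂ) (x : HeightOneSpectrum (𝓞 K) → G)
    (τ ε : ℝ) : ℝ := Real.log ‖LFun π x (1 + τ * Complex.I + ε)‖ / Real.log (1 / ε)

/-- `Λ` is a meromorphic continuation of `L(π, s)` to a neighbourhood of `1 + iτ`. -/
def IsContinuation (π : G →* Matrix.unitaryGroup (Fin n) ℂ) (x : HeightOneSpectrum (𝓞 K) → G)
    (τ : ℝ) (Λ : ℂ → ℂ) : Prop :=
  MeromorphicAt Λ (1 + τ * Complex.I) ∧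
    ∀ᶠ s in 𝓝 ((1 : ℂ) + τ * Complex.I), (1 : ℝ) < s.re → Λ s = LFun π x s

end

section Bridge

set_option linter.unusedSectionVars false

open Pool.Agent.TH553.ST Pool.Agent.TH553.RS Pool.Agent.W540.BE

variable {K : Type} [Field K] [NumberField K]

theorem avg_eq (g : HeightOneSpectrum (𝓞 K) → ℂ) : avg g = mn g := by
  funext N
  have hs : ∀ v, v ∈ upto K N ↔ Ideal.absNorm v.asIdeal ≤ N := fun v => mem_upto
  let e : {v : HeightOneSpectrum (𝓞 K) // Ideal.absNorm v.asIdeal ≤ N} ≃ (upto K N) :=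
    Equiv.subtypeEquivRight fun v => (hs v).symm
  have hfin : Finite {v : HeightOneSpectrum (𝓞 K) // Ideal.absNorm v.asIdeal ≤ N} :=
    Finite.of_equiv _ e.symm
  unfold avg mn
  have h1 : (∑ᶠ v : {v : HeightOneSpectrum (𝓞 K) // Ideal.absNorm v.asIdeal ≤ N}, g v.1) =
      ∑ v ∈ upto K N, g v := by
    rw [← Finset.sum_coe_sort, ← finsum_eq_sum_of_fintype, ← finsum_comp_equiv e]
    rfl
  have h2 : Nat.card {v : HeightOneSpectrum (𝓞 K) // Ideal.absNorm v.asIdeal ≤ N} =
      (upto K N).card := by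
    rw [Nat.card_congr e, Nat.card_eq_fintype_card, Fintype.card_coe]
  rw [h1, h2, Complex.real_smul, div_eq_inv_mul]
  push_cast
  rfl

variable {G : Type} [Group G] [TopologicalSpace G] [IsTopologicalGroup G] [CompactSpace G]
  [MeasurableSpace G] [BorelSpace G] {μ : Measure G} [IsProbabilityMeasure μ] [μ.IsHaarMeasure]
  {n : ℕ} {π : G →* Matrix.unitaryGroup (Fin n) ℂ} {x : HeightOneSpectrum (𝓞 K) → G}

theorem LFun_eq : LFun π x = L1 π x := rfl

theorem size_eq (τ : ℝ) : size π x τ = sz1 π x τ := rfl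

/-- the absolute value of an irreducible character does not change modulo the centre -/
theorem norm_center (hs : Schur π) (hn : n ≠ 0) (g : G) {z : G} (hz : z ∈ Subgroup.center G) :
    ‖chi π (g * z)‖ = ‖chi π g‖ := by
  obtain ⟨c, hc⟩ := hs (π z : Matrix (Fin n) (Fin n) ℂ) fun g => by
    rw [← pi_mul, ← pi_mul]
    rw [Subgroup.mem_center_iff.1 hz g]
  have h1 : ‖c‖ = 1 := by
    have h2 := pi_star (π := π) z
    rw [hc, Matrix.conjTranspose_smul, Matrix.conjTranspose_one, smul_mul_smul_comm, one_mul] at h2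
    have h3 := congrFun (congrFun h2 ⟨0, Nat.pos_of_ne_zero hn⟩) ⟨0, Nat.pos_of_ne_zero hn⟩
    simp only [Matrix.smul_apply, Matrix.one_apply_eq, smul_eq_mul, mul_one] at h3
    have h4 : ‖c‖ * ‖c‖ = 1 := by
      have h5 := congrArg (fun t : ℂ => ‖t‖) h3
      simpa using h5
    have h6 : 0 ≤ ‖c‖ := norm_nonneg c
    nlinarith
  unfold chi
  rw [pi_mul, hc, Matrix.mul_smul, mul_one, Matrix.trace_smul, norm_smul, h1, one_mul]

/-- the mean of the absolute value of the character -/
theorem M_abs (hx : EquidistributedModCenter x μ) (hc : Continuous π) (hs : Schur π) (hn : n ≠ 0)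
    {U : Ultrafilter ℝ} (hU : (U : Filter ℝ) ≤ 𝓝[>] 0) :
    (M (nm K) U fun v => ‖chi π (x v)‖) = ∫ g, ‖chi π g‖ ∂μ := by
  have hf : Continuous fun g => ‖chi π g‖ := (cont_chi hc).norm
  refine M_of_mn hU (bd_cont hf x) ?_
  have h1 := hx (fun g => ((‖chi π g‖ : ℝ) : ℂ)) (Complex.continuous_ofReal.comp hf)
    (fun g h => by rw [chi_cls]) fun g z hz => by rw [norm_center hs hn g hz]
  have h0 : ∫ g, ((‖chi π g‖ : ℝ) : ℂ) ∂μ = ((∫ g, ‖chi π g‖ ∂μ : ℝ) : ℂ) := integral_ofReal
  rw [avg_eq, h0] at h1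
  have h2 := (Complex.continuous_re.tendsto _).comp h1
  refine h2.congr fun N => ?_
  simp only [Function.comp]
  rw [re_mn]
  rfl

/-- the integral is less than one -/
theorem int_abs_lt (hc : Continuous π) (hs : Schur π) (hn : 2 ≤ n) :
    ∫ g, ‖chi π g‖ ∂μ < 1 := by
  have hf : Continuous fun g => ‖chi π g‖ := (cont_chi hc).norm
  have h1 := int_sq (μ := μ) hc hs (by omega)
  have h2 : 0 < ∫ g, (‖chi π g‖ - 1) ^ 2 ∂μ := by
    refine int_pos (μ := μ) ((hf.sub continuous_const).pow 2) (fun g => sq_nonneg _) (g₀ := 1) ?_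
    rw [chi_one]
    have h3 : (2 : ℝ) ≤ n := by exact_mod_cast hn
    have h4 : ‖((n : ℕ) : ℂ)‖ = n := by simp
    rw [h4]
    have h5 : (0 : ℝ) < (n : ℝ) - 1 := by linarith
    positivity
  have h3 : ∫ g, (‖chi π g‖ - 1) ^ 2 ∂μ = 2 - 2 * ∫ g, ‖chi π g‖ ∂μ := by
    have i1 : Integrable (fun g => ‖chi π g‖ ^ 2) μ := intg (hf.pow 2)
    have i2 : Integrable (fun g => 2 * ‖chi π g‖) μ := (intg hf).const_mul 2
    have e : ∀ g, (‖chi π g‖ - 1) ^ 2 = ‖chi π g‖ ^ 2 - 2 * ‖chi π g‖ + 1 := fun g => by ring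
    calc ∫ g, (‖chi π g‖ - 1) ^ 2 ∂μ = ∫ g, (‖chi π g‖ ^ 2 - 2 * ‖chi π g‖ + 1) ∂μ := by
          simp only [e]
      _ = (∫ g, (‖chi π g‖ ^ 2 - 2 * ‖chi π g‖) ∂μ) + ∫ _, (1 : ℝ) ∂μ :=
          integral_add (i1.sub i2) (integrable_const _)
      _ = ((∫ g, ‖chi π g‖ ^ 2 ∂μ) - ∫ g, 2 * ‖chi π g‖ ∂μ) + 1 := by
          rw [integral_sub i1 i2]
          simp
      _ = 2 - 2 * ∫ g, ‖chi π g‖ ∂μ := by
          rw [h1, integral_const_mul]
          ring
  linarith

/-- along an ultrafilter -/
theorem lim_abs (hx : EquidistributedModCenter x μ) (hc : Continuous π) (hs : Schur π) (hn : n ≠ 0)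
    (τ : ℝ) {U : Ultrafilter ℝ} (hU : (U : Filter ℝ) ≤ 𝓝[>] 0) :
    ∃ r : ℝ, Tendsto (sz1 π x τ) U (𝓝 r) ∧ |r| ≤ ∫ g, ‖chi π g‖ ∂μ := by
  have hN := sysF K
  have hb := bc_tc (π := π) x τ
  have hre : Bd fun v => (tc π x τ v).re := hb.re
  have hab : Bd fun v => ‖tc π x τ v‖ := hb.norm
  have hM : (M (nm K) U fun v => ‖tc π x τ v‖) = ∫ g, ‖chi π g‖ ∂μ := by
    simp only [norm_tc]
    exact M_abs hx hc hs hn hU
  refine ⟨M (nm K) U fun v => (tc π x τ v).re, ?_, ?_⟩
  · have h5 := M_lim hN hU hre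
    have h6 := h5.sub ((size_L1 π x τ).2.mono_left hU)
    rw [sub_zero] at h6
    refine h6.congr fun ε => ?_
    unfold tc
    ring
  · rw [← hM, abs_le]
    constructor
    · have h1 := M_nonneg hN hU (hre.add hab) fun v => by
        have := Complex.abs_re_le_norm (tc π x τ v)
        have := neg_abs_le (tc π x τ v).re
        linarith
      rw [M_add hN hU hre hab] at h1
      linarith
    · have h1 := M_nonneg hN hU (hab.add (hre.const_mul (-1))) fun v => by
        have := Complex.re_le_norm (tc π x τ v)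
        linarith
      rw [M_add hN hU hab (hre.const_mul (-1)), M_const_mul hN hU hre] at h1
      linarith

/-- the bound for the size -/
theorem size_le (hx : EquidistributedModCenter x μ) (hc : Continuous π) (hs : Schur π) (hn : n ≠ 0)
    (τ : ℝ) {η : ℝ} (hη : 0 < η) :
    ∀ᶠ ε in 𝓝[>] (0 : ℝ), |sz1 π x τ ε| ≤ (∫ g, ‖chi π g‖ ∂μ) + η := by
  refine eventually_of_ultra fun U hU => ?_
  obtain ⟨r, h1, h2⟩ := lim_abs hx hc hs hn τ hU
  exact (h1.abs.eventually_lt_const (lt_of_le_of_lt h2 (by linarith))).mono fun ε hε => hε.le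

/-- the order is zero -/
theorem order_zero (hx : EquidistributedModCenter x μ) (hc : Continuous π) (hs : Schur π) (hn : 2 ≤ n)
    {τ : ℝ} {Λ : ℂ → ℂ} (hΛ : IsContinuation π x τ Λ) :
    meromorphicOrderAt Λ (1 + τ * Complex.I) = ((0 : ℤ) : WithTop ℤ) := by
  obtain ⟨m, h1, h2⟩ := order_L1 hΛ.1 hΛ.2
  have h3 := int_abs_lt (μ := μ) hc hs hn
  have h4 : |(-(m : ℝ))| ≤ (∫ g, ‖chi π g‖ ∂μ) + (1 - ∫ g, ‖chi π g‖ ∂μ) / 2 :=
    le_of_tendsto h2.abs (size_le hx hc hs (by omega) τ (by linarith))
  rw [abs_neg] at h4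
  have h5 : |(m : ℝ)| < 1 := by linarith
  have h6 : |m| < 1 := by exact_mod_cast h5
  rw [h1, Int.abs_lt_one_iff.1 h6]

end Bridge

/-- **The law modulo the centre.**  Let `K` be a number field, `G` a compact group with Haar probability
measure `μ` and centre `Z`, and `x_v ∈ G` for the primes `v` of `K`, such that the classes of the images of
the `x_v` in `G / Z` are equidistributed.
* Let `π` be an irreducible representation of `G` of dimension at least two.  Then `∫ |tr π| dμ < 1`; for
  all real `τ` and all `η > 0`, `L(π, 1 + iτ + ε) ≠ 0` and `|log |L(π, 1 + iτ + ε)||` is at most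
  `(∫ |tr π| dμ + η) log (1 / ε)` for all small `ε > 0`; and every meromorphic continuation of `L(π, s)` to a
  neighbourhood of `1 + iτ` has order `0` there.
* Suppose that the mean of `ψ (x_v)` is zero for each nontrivial one-dimensional character `ψ` of `G`, and
  that `L(π, s)` has a meromorphic continuation to a neighbourhood of each point of the line `Re s = 1` for
  each irreducible representation `π` of dimension at least two which is not trivial on `Z`.  Then
  the classes of the `x_v` are equidistributed in `G`. -/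
theorem result (K : Type) [Field K] [NumberField K] (G : Type) [Group G] [TopologicalSpace G]
    [IsTopologicalGroup G] [CompactSpace G] [T2Space G] [MeasurableSpace G] [BorelSpace G]
    (μ : Measure G) [IsProbabilityMeasure μ] [μ.IsHaarMeasure] (x : HeightOneSpectrum (𝓞 K) → G)
    (hx : EquidistributedModCenter x μ) :
    (∀ (n : ℕ) (π : G →* Matrix.unitaryGroup (Fin n) ℂ), 2 ≤ n → Continuous π → IsIrreducible π →
      ∫ g, ‖tr π g‖ ∂μ < 1 ∧
      ∀ τ : ℝ, (∀ᶠ ε : ℝ in 𝓝[>] 0, LFun π x (1 + τ * Complex.I + ε) ≠ 0) ∧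
        (∀ η : ℝ, 0 < η → ∀ᶠ ε : ℝ in 𝓝[>] 0, |size π x τ ε| ≤ (∫ g, ‖tr π g‖ ∂μ) + η) ∧
        ∀ Λ, IsContinuation π x τ Λ → meromorphicOrderAt Λ (1 + τ * Complex.I) = 0) ∧
    ((∀ ψ : G →* Matrix.unitaryGroup (Fin 1) ℂ, Continuous ψ → (∃ g, ψ g ≠ 1) →
        Tendsto (avg fun v => tr ψ (x v)) atTop (𝓝 0)) →
      (∀ (n : ℕ) (π : G →* Matrix.unitaryGroup (Fin n) ℂ), 2 ≤ n → Continuous π → IsIrreducible π →
        (∃ z ∈ Subgroup.center G, π z ≠ 1) → ∀ τ : ℝ, ∃ Λ, IsContinuation π x τ Λ) →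
      Equidistributed x μ) := by
  refine ⟨fun n π hn hc hs => ⟨int_abs_lt hc hs hn, fun τ => ⟨(Pool.Agent.TH553.ST.size_L1 π x τ).1,
    fun η hη => size_le hx hc hs (by omega) τ hη, fun Λ hΛ => order_zero hx hc hs hn hΛ⟩⟩, ?_⟩
  intro h1 h2 f hf hcl
  rw [avg_eq]
  refine Pool.Agent.TH553.ST.weyl (fun n π hc hs hnt => ?_) hf fun g k => hcl g k
  rcases Nat.lt_or_ge n 2 with hn | hn
  · have hn0 : n ≠ 0 := Pool.Agent.TH553.ST.ne_zero_of_nt hnt
    obtain rfl : n = 1 := by omega
    have h3 := h1 π hc hnt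
    rw [avg_eq] at h3
    exact h3
  · by_cases hz : ∃ z ∈ Subgroup.center G, π z ≠ 1
    · refine Pool.Agent.TH553.ST.avg_L1 fun τ => ?_
      obtain ⟨Λ, hΛ⟩ := h2 n π hn hc hs hz τ
      exact ⟨Λ, hΛ.1, hΛ.2, order_zero hx hc hs hn hΛ⟩
    · push Not at hz
      have h3 := hx (fun g => Pool.Agent.TH553.ST.chi π g) (Pool.Agent.TH553.ST.cont_chi hc)
        (fun g h => Pool.Agent.TH553.ST.chi_cls π g h) fun g z hzc => by
          unfold Pool.Agent.TH553.ST.chi
          rw [map_mul, hz z hzc, mul_one]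
      rw [avg_eq, Pool.Agent.TH553.ST.int_chi hc hs hnt] at h3
      exact h3

end Pool.Agent.Results.MP_3da4c4_nt.AdjointReduction
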