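import Pool.Agent.Q14.HV.Curve

/-!
# All class functions, for almost all hyperelliptic curves of genus `g`: horizontal means are vertical
means, with square-root error, at all scales, along arbitrary sequences of primes

The curve `C_n : y² = f_n(x)`, `f_n = x^(2g+1) + n_{2g} x^(2g) + ... + n_0` with integers `n_i`, has genus
`g`.  At the good primes `p` (odd, `f_n` separable modulo `p`) the normalised `L`-polynomial
`L_p(T / p^(1/2))` has the coefficients `1, a_1, ..., a_g, ...`, which are computed from the numbers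
of points of the curve over the fields with `p, p^2, ..., p^g` elements (`Pool/Agent/Q14/HV/Curve.lean`).

Let `Φ(a_1, ..., a_g)` be a function of the coefficients which is bounded on bounded sets; for example
any continuous function, or a product of powers.  The *vertical mean* at `p` is the mean of `Φ` over
all separable monic polynomials of degree `2g+1` over the field with `p` elements.  The *horizontal mean*
of `C_n` is the mean of `Φ` over the good primes among the first `j` primes of a sequence.

1. For almost all `n` in a box of side `X` (in any position) the horizontal mean differs from the mean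
   of the `j` vertical means by at most `j^(-1/2+δ)`, for all `j` from `L` up to the number of primes
   used, simultaneously.  The primes are distinct and at most `X^(1/3)`; otherwise the set and the
   order of the primes are arbitrary.
2. For a number `v`: the vertical means tend to `v` for `p → ∞` if and only if the horizontal
   means are near `v` for almost all curves, at all scales and along all sequences of primes.

The vertical means are known: by Deligne's equidistribution theorem and the computation of the geometric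
monodromy (Katz and Sarnak) they tend, for continuous `Φ`, to the integral of `Φ` over `USp(2g)`.  This
theorem is not used and not assumed here; with it, 2. says that for almost all curves all moments
`a_k(m; g)` and all other means of class functions are near the predicted ones at all scales.

Proof: the values at different primes are independent (second moments over the box, Chinese
remainder theorem), a maximal inequality of Rademacher and Menshov, Weil's bound over all extensions,
and the rareness of inseparable polynomials.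
-/

set_option autoImplicit false

namespace Pool.Agent.Results.MP_3da4c4_nt.ClassFunctionsAlmostAllCurves

open Pool.Agent.Q14.HV

variable {g : ℕ}

/-- The polynomial with lower coefficients `c` is good: `p` is odd and the polynomial is separable. -/
def Good (p : ℕ) (c : Fin (2 * g + 1) → ZMod p) : Prop := p ≠ 2 ∧ (poly c).Separable

open Classical in
/-- The value of `Φ` at the coefficients `a_1, ..., a_g` of the normalised `L`-polynomial. -/
noncomputable def value (Φ : (Fin g → ℝ) → ℝ) (p : ℕ) (c : Fin (2 * g + 1) → ZMod p) : ℝ :=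
  if h : p.Prime then haveI : Fact p.Prime := ⟨h⟩; Φ fun k => a p (poly c) ((k : ℕ) + 1) else 0

/-- The vertical mean at `p`: the mean of `Φ` over the good polynomials modulo `p`. -/
noncomputable def vertical (Φ : (Fin g → ℝ) → ℝ) (p : ℕ) : ℝ :=
  (∑ᶠ c : {c : Fin (2 * g + 1) → ZMod p // Good p c}, value Φ p c) /
    (Nat.card {c : Fin (2 * g + 1) → ZMod p // Good p c} : ℝ)

/-- The lower coefficients of `f_n` modulo `p`. -/
def mod (p : ℕ) (n : Fin (2 * g + 1) → ℤ) : Fin (2 * g + 1) → ZMod p := fun i => (n i : ZMod p)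

open Classical in
/-- The horizontal mean: the mean of `Φ` over the good primes among the first `j` primes of the
sequence `P 0, P 1, P 2, ...`. -/
noncomputable def horizontal (Φ : (Fin g → ℝ) → ℝ) (P : ℕ → ℕ) (n : Fin (2 * g + 1) → ℤ) (j : ℕ) : ℝ :=
  (∑ i ∈ (Finset.range j).filter (fun i => Good (P i) (mod (P i) n)), value Φ (P i) (mod (P i) n)) /
    (((Finset.range j).filter (fun i => Good (P i) (mod (P i) n))).card : ℝ)

/-- The box of side `X` with the corner `A`. -/
def Box (A : Fin (2 * g + 1) → ℤ) (X : ℕ) : Set (Fin (2 * g + 1) → ℤ) :=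
  {n | ∀ i, A i ≤ n i ∧ n i < A i + X}

lemma few (g : ℕ) : Few (ι := Fin (2 * g + 1)) Good ((2 * g + 3 : ℕ) : ℝ) := by
  classical
  intro p hp
  haveI : Fact p.Prime := ⟨hp⟩
  have hp0 : (0 : ℝ) < p := by exact_mod_cast hp.pos
  have hsub : (Nat.card {r : Fin (2 * g + 1) → ZMod p // ¬ Good p r}) * p ≤
      (2 * g + 3) * p ^ (2 * g + 1) := by
    by_cases h2 : p = 2
    · have h1 : Nat.card {r : Fin (2 * g + 1) → ZMod p // ¬ Good p r} ≤ p ^ (2 * g + 1) := by
        rw [Nat.card_eq_fintype_card]
        refine (Fintype.card_subtype_le _).trans ?_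
        rw [Fintype.card_pi]
        simp [ZMod.card]
      calc _ ≤ p ^ (2 * g + 1) * p := Nat.mul_le_mul_right _ h1
        _ = p * p ^ (2 * g + 1) := mul_comm _ _
        _ ≤ (2 * g + 3) * p ^ (2 * g + 1) := Nat.mul_le_mul_right _ (by omega)
    · have h1 := Pool.Agent.Q14.ST.insep_card (p := p) (2 * g + 1)
      have h3 : Nat.card {r : Fin (2 * g + 1) → ZMod p // ¬ Good p r} =
          (Finset.univ.filter fun c : Fin (2 * g + 1) → ZMod p =>
            ¬ (Pool.Agent.Q14.ST.mpoly c).Separable).card := by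
        rw [Nat.card_eq_fintype_card, Fintype.card_subtype]
        congr 1
        ext c
        simp only [Finset.mem_filter, Finset.mem_univ, true_and]
        unfold Good
        rw [poly_eq]
        simp [h2]
      rw [h3]
      exact h1.trans (Nat.mul_le_mul_right _ (by omega))
  rw [Fintype.card_fin, div_mul_eq_mul_div, le_div_iff₀ hp0]
  exact_mod_cast hsub

lemma bounded {Φ : (Fin g → ℝ) → ℝ} (hΦ : ∀ R : ℝ, ∃ K : ℝ, ∀ x, (∀ k, |x k| ≤ R) → |Φ x| ≤ K) :
    ∃ K : ℝ, 0 ≤ K ∧ ∀ p : ℕ, p.Prime → ∀ r : Fin (2 * g + 1) → ZMod p, Good p r →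
      |value Φ p r| ≤ K := by
  obtain ⟨K, hK⟩ := hΦ ((1 + ((2 * g + 1 : ℕ) : ℝ)) ^ g)
  refine ⟨|K|, abs_nonneg _, fun p hp r hr => ?_⟩
  haveI : Fact p.Prime := ⟨hp⟩
  unfold value
  rw [dif_pos hp]
  exact (hK _ fun k => a_bound hr.1 (odd_two_mul_add_one g) r g _ (by omega)).trans (le_abs_self K)

lemma card_le {A : Fin (2 * g + 1) → ℤ} {X : ℕ} (Q : (Fin (2 * g + 1) → ℤ) → Prop) [DecidablePred Q] :
    Set.ncard {n | n ∈ Box A X ∧ Q n} = ((Pool.Agent.Q14.ST.box A X).filter Q).card := by
  rw [← Set.ncard_coe_finset]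
  congr 1
  ext n
  rw [Finset.mem_coe, Finset.mem_filter, Pool.Agent.Q14.ST.box, Fintype.mem_piFinset]
  simp only [Set.mem_ofPred_eq, Finset.mem_Ico, Box]

/-- **Horizontal means of class functions are vertical means for almost all curves of genus `g`, at
all scales, along all sequences of primes; the law for almost all curves is equivalent to the
vertical law.** -/
theorem result (g : ℕ) (Φ : (Fin g → ℝ) → ℝ)
    (hΦ : ∀ R : ℝ, ∃ K : ℝ, ∀ x, (∀ k, |x k| ≤ R) → |Φ x| ≤ K) :
    (∀ δ : ℝ, 0 < δ → δ ≤ 1 / 2 → ∃ C : ℝ, ∀ (X L J Q : ℕ) (A : Fin (2 * g + 1) → ℤ) (P : ℕ → ℕ),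
      1 ≤ X → 1 ≤ L → Q ^ 3 ≤ X → (∀ i < J, (P i).Prime ∧ P i ≤ Q) → Set.InjOn P (Set.Iio J) →
      (Set.ncard {n | n ∈ Box A X ∧ ∃ j, L ≤ j ∧ j ≤ J ∧ (j : ℝ) ^ (-(1 / 2) + δ) <
          |horizontal Φ P n j - (∑ i ∈ Finset.range j, vertical Φ (P i)) / j|} : ℝ) ≤
        C / (L : ℝ) ^ (δ / 2) * (X : ℝ) ^ (2 * g + 1)) ∧
    ∀ v : ℝ,
      (∀ ε : ℝ, 0 < ε → ∃ p₀ : ℕ, ∀ p : ℕ, p.Prime → p₀ ≤ p → |vertical Φ p - v| ≤ ε) ↔
      ∀ ε : ℝ, 0 < ε → ∃ C : ℝ, ∀ (X L J Q : ℕ) (A : Fin (2 * g + 1) → ℤ) (P : ℕ → ℕ),
        1 ≤ X → 1 ≤ L → Q ^ 3 ≤ X → (∀ i < J, (P i).Prime ∧ P i ≤ Q) →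
        Set.InjOn P (Set.Iio J) →
        (Set.ncard {n | n ∈ Box A X ∧ ∃ j, L ≤ j ∧ j ≤ J ∧ ε < |horizontal Φ P n j - v|} : ℝ) ≤
          C / (L : ℝ) ^ ((1 : ℝ) / 8) * (X : ℝ) ^ (2 * g + 1) := by
  classical
  obtain ⟨K, hK0, hK⟩ := bounded hΦ
  have hc : (0 : ℝ) ≤ ((2 * g + 3 : ℕ) : ℝ) := Nat.cast_nonneg _
  constructor
  · intro δ hδ hδ1
    obtain ⟨C, -, hC⟩ := hvGood (Fin (2 * g + 1)) hδ hδ1 hK0 hc
    refine ⟨C, fun X L J Q A P hX hL hQX hP hinj => ?_⟩
    have h := hC Good (value Φ) hK (few g) X L J Q A P hL hX hQX hP hinj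
      ((Pool.Agent.Q14.ST.box A X).filter fun n => ∃ j, L ≤ j ∧ j ≤ J ∧ (j : ℝ) ^ (-(1 / 2) + δ) <
          |horizontal Φ P n j - (∑ i ∈ Finset.range j, vertical Φ (P i)) / j|)
      (Finset.filter_subset _ _) (fun n hn => (Finset.mem_filter.1 hn).2)
    rw [card_le]
    refine h.trans (le_of_eq ?_)
    rw [Fintype.card_fin, mul_one_div]
  · intro v
    rw [show (∀ ε : ℝ, 0 < ε → ∃ p₀ : ℕ, ∀ p : ℕ, p.Prime → p₀ ≤ p → |vertical Φ p - v| ≤ ε) ↔
      _ from law_iff (Fin (2 * g + 1)) hK0 hc Good (value Φ) hK (few g) v]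
    refine forall_congr' fun ε => forall_congr' fun hε => exists_congr fun C => ?_
    refine forall_congr' fun X => forall_congr' fun L => forall_congr' fun J => forall_congr' fun Q =>
      forall_congr' fun A => forall_congr' fun P => ?_
    rw [Fintype.card_fin]
    constructor
    · intro h hX hL hQX hP hinj
      rw [card_le]
      refine (h hL hX hQX hP hinj).trans (le_of_eq ?_)
      rw [mul_one_div]
    · intro h hL hX hQX hP hinj
      have h' := h hX hL hQX hP hinj
      rw [card_le] at h'
      refine le_trans ?_ (h'.trans (le_of_eq ?_))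
      · exact le_rfl
      · rw [mul_one_div]

end Pool.Agent.Results.MP_3da4c4_nt.ClassFunctionsAlmostAllCurves
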