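import Pool.Agent.Q235.FD.Hyp4

/-!
# The Sato-Tate moments of order at most `2 g + 1`, with square-root error, for almost all hyperelliptic curves of genus `g` whose
coefficients arise from arbitrary integers by changing a few digits

Let `C : Y ^ 2 = X ^ (2 g + 1) + m (2 g) X ^ (2 g) + ... + m 0` be a curve of genus `g` whose coefficients arise from arbitrary
integers by changing a few digits at random positions. The Sato-Tate conjecture predicts that the mean of the `k`-th powers of the
coefficient `a_{1, p}` of the normalised `L`-polynomial tends to the moment `c_1(k; g)` of the coefficient `c_1` of the characteristic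
polynomial of a random matrix in `USp(2 g)`. For `k ≤ 2 g + 1` this moment is `(k - 1)!!` for even `k` and `0` for odd `k`. We show
for almost all choices of the positions that this is true with a square-root error term, for all `k ≤ 2 g + 1` simultaneously, at
the primes in up to `x ^ B` arbitrary sets of primes up to `x` (all primes, those in an arithmetic progression, in a short interval,
...), for all `x` from `y` to `exp (c r)`, where `r` is the number of the digits changed. (For a single curve such an error term is
expected only for `x` larger than a power of the logarithm of the conductor.)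

The proof uses the law for functions of the residues of such tuples (library `TH894.NE`), Weil's bound (library `H341R2`), and
the computation of the averages over the polynomials modulo `p`: the values at `k ≤ 2 g + 1` different points are independent.
-/

set_option autoImplicit false

namespace Pool.Agent.Results.MP_3da4c4_nt.FewDigitMoments

open Finset Pool.Agent.Q235.FD

/-- The coefficient `a_{1, p} = (N_1 - p - 1) / p ^ (1 / 2)` of the normalised `L`-polynomial of
`Y ^ 2 = X ^ (2 g + 1) + m (2 g) X ^ (2 g) + ... + m 0` at `p`; the number `N_1` of the points modulo `p` is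
`affine p m + 1` (there is one point at infinity). -/
noncomputable def a₁ {g : ℕ} (p : ℕ) (m : Fin (2 * g + 1) → ℕ) : ℝ :=
  (((affine p m + 1 : ℕ) : ℝ) - p - 1) / Real.sqrt p

/-- The moments `c_1(k; g)` for `k ≤ 2 g + 1`: `(k - 1)!!` for even `k`, and `0` for odd `k`. -/
noncomputable def c₁ (k : ℕ) : ℝ := if Even k then ((k - 1).doubleFactorial : ℝ) else 0

open Classical in
/-- For all sets `P` of primes in the family: at most `|P| ^ (1 / 2) x ^ δ` of the primes in `P` are bad (`p = 2`, or the
polynomial is not separable modulo `p`); and for all `k ≤ 2 g + 1` the sum of `a_{1, p} ^ k - c_1(k; g)` over the good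
primes in `P` is at most `|P| ^ (1 / 2) x ^ δ` in absolute value (`P` not empty). -/
def Good {g B : ℕ} (δ : ℝ) (θ : Sets B) (x : ℕ) (m : Fin (2 * g + 1) → ℕ) : Prop :=
  ∀ P ∈ θ.S x, (number P (fun p => ¬ GoodPrime p m) : ℝ) ≤ Real.sqrt (max 1 P.card) * (x : ℝ) ^ δ ∧
    ∀ k ≤ 2 * g + 1, |∑ p ∈ P.filter (fun p => GoodPrime p m), (a₁ p m ^ k - c₁ k)| ≤
      Real.sqrt (max 1 P.card) * (x : ℝ) ^ δ

/-- For all `g ≥ 1`, bases `b ≥ 2`, `δ > 0`, `A` and `B`, `Good δ θ x m` holds for almost all coefficient vectors `m` obtained
by changing a few digits of arbitrary integers (`ForAlmostAll`), uniformly in the family `θ` of at most `x ^ B` sets of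
primes up to `x`. -/
theorem result (g : ℕ) (_hg : 1 ≤ g) (b : ℕ) (hb : 2 ≤ b) (δ : ℝ) (hδ : 0 < δ) (A B : ℕ) :
    ForAlmostAll (Fin (2 * g + 1)) b A (Good (g := g) (B := B) δ) := by
  classical
  refine (moment_law (2 * g + 1) ⟨g, rfl⟩ hb hδ A B).mono 0 ?_
  intro θ x m _ h P hP
  obtain ⟨h1, h2⟩ := h P hP
  refine ⟨?_, fun k hk => ?_⟩
  · refine le_trans (le_of_eq ?_) ((le_abs_self _).trans h1)
    unfold number bad
    rw [card_filter]
    push_cast
    refine sum_congr rfl fun p _ => ?_
    by_cases hg : GoodPrime p m
    · rw [if_neg (not_not.2 hg), if_pos hg]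
    · rw [if_pos hg, if_neg hg]
  · have h3 := h2 k hk
    have e1 : ∀ p, a₁ p m = -(ntrace p m) := by
      intro p
      unfold a₁ ntrace
      push_cast
      ring
    have e2 : ∑ p ∈ P, cpow k p m = (-1) ^ k * ∑ p ∈ P.filter (fun p => GoodPrime p m), (a₁ p m ^ k - c₁ k) := by
      rw [sum_filter, mul_sum]
      refine sum_congr rfl fun p _ => ?_
      unfold cpow
      by_cases hg : GoodPrime p m
      · rw [if_pos hg, if_pos hg, e1]
        rcases Nat.even_or_odd k with he | ho
        · rw [he.neg_one_pow, he.neg_pow, one_mul]
          rfl
        · have h4 : gmom k = 0 := by unfold gmom; rw [if_neg (Nat.not_even_iff_odd.2 ho)]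
          have h5 : c₁ k = 0 := h4
          rw [h4, h5, ho.neg_one_pow, ho.neg_pow]
          ring
      · rw [if_neg hg, if_neg hg, mul_zero]
    rw [e2, abs_mul, abs_pow, abs_neg, abs_one, one_pow, one_mul] at h3
    exact h3

end Pool.Agent.Results.MP_3da4c4_nt.FewDigitMoments
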