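import Pool.Agent.Q56.WL.Hyp

/-!
# The Sato-Tate moments of order at most `2 g + 1`, with square-root error, for ALL hyperelliptic curves of genus `g` with
coefficients in windows near powers with non-integral exponents

Let `C : Y ^ 2 = X ^ (2 g + 1) + n (2 g) X ^ (2 g) + ... + n 0` be a curve of genus `g`, whose coefficients are arbitrary integers
in the windows of length `y ^ W` around the real numbers `β l + w l * i (μ l) ^ e l`, where `i = (i_1, ..., i_m)` runs through
`{1, ..., x} ^ m`, the exponents `e l > 1` are not integers, and two coefficients which depend on the same index have different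
exponents. For instance `m = 1`: the curves with coefficients near `(i ^ (3/2), i ^ (5/2), i ^ (7/2), ...)`, a one-parameter
family of curves. The Sato-Tate conjecture predicts that the mean of the `k`-th powers of the coefficient `a_{1, p}` of the
normalised `L`-polynomial tends to the moment `c_1(k; g)` of the coefficient `c_1` of the characteristic polynomial of a random
matrix in `USp(2 g)`. For `k ≤ 2 g + 1` this moment is `(k - 1)!!` for even `k` and `0` for odd `k`. We show for almost all index
vectors, and ALL curves with coefficients in the windows, that this is true with a square-root error term, for all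
`k ≤ 2 g + 1` simultaneously, at the primes in up to `z ^ B` arbitrary sets of primes up to `z` (all primes, those in an arithmetic
progression, in a short interval, ...), for all `z` from `y` to `x ^ c`.

The proof uses the moments of sums of functions of the residues of such tuples (`Q56.WL`: products of Fejér kernels, and van der
Corput's method for the exponential sums over the real points), Weil's bound (library `H341R2`), and the averages over the
polynomials modulo `p` (`Q235.FD`).
-/

set_option autoImplicit false

namespace Pool.Agent.Results.MP_3da4c4_nt.NearPowers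

open Finset Pool.Agent.Q56.WL
open Pool.Agent.Q235.FD (Sets number affine GoodPrime ntrace cpow bad gmom)

/-- The coefficient `a_{1, p} = (N_1 - p - 1) / p ^ (1 / 2)` of the normalised `L`-polynomial of
`Y ^ 2 = X ^ (2 g + 1) + n (2 g) X ^ (2 g) + ... + n 0` at `p`; the number `N_1` of the points modulo `p` is
`affine p n + 1` (there is one point at infinity). -/
noncomputable def a₁ {g : ℕ} (p : ℕ) (n : Fin (2 * g + 1) → ℕ) : ℝ :=
  (((affine p n + 1 : ℕ) : ℝ) - p - 1) / Real.sqrt p

/-- The moments `c_1(k; g)` for `k ≤ 2 g + 1`: `(k - 1)!!` for even `k`, and `0` for odd `k`. -/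
noncomputable def c₁ (k : ℕ) : ℝ := if Even k then ((k - 1).doubleFactorial : ℝ) else 0

open Classical in
/-- For all sets `P` of primes in the family: at most `|P| ^ (1 / 2) z ^ δ` of the primes in `P` are bad (`p = 2`, or the
polynomial is not separable modulo `p`); and for all `k ≤ 2 g + 1` the sum of `a_{1, p} ^ k - c_1(k; g)` over the good
primes in `P` is at most `|P| ^ (1 / 2) z ^ δ` in absolute value (`P` not empty). -/
def Good {g B : ℕ} (δ : ℝ) (θ : Sets B) (z : ℕ) (n : Fin (2 * g + 1) → ℕ) : Prop :=
  ∀ P ∈ θ.S z, (number P (fun p => ¬ GoodPrime p n) : ℝ) ≤ Real.sqrt (max 1 P.card) * (z : ℝ) ^ δ ∧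
    ∀ k ≤ 2 * g + 1, |∑ p ∈ P.filter (fun p => GoodPrime p n), (a₁ p n ^ k - c₁ k)| ≤
      Real.sqrt (max 1 P.card) * (z : ℝ) ^ δ

/-- Let `g ≥ 1`, and let the exponents `e`, the coefficients `w` and the map `μ` from the `2 g + 1` coordinates to the `m` indices
be as in `Setting`. For all `δ > 0`, `A`, `W` and `B` the property `Good δ θ z n` holds for almost all index vectors and ALL
coefficient vectors `n` in the windows of length `y ^ W` (`ForAlmostAll`), uniformly in the shifts `β` and in the family `θ` of at
most `z ^ B` sets of primes up to `z`. -/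
theorem result (g : ℕ) (_hg : 1 ≤ g) (m : ℕ) (e w : Fin (2 * g + 1) → ℝ) (μ : Fin (2 * g + 1) → Fin m) (hs : Setting e w μ)
    (δ : ℝ) (hδ : 0 < δ) (A W B : ℕ) : ForAlmostAll e w μ A W (Good (g := g) (B := B) δ) := by
  classical
  refine (moment_near (2 * g + 1) ⟨g, rfl⟩ hs hδ A W B).mono 0 ?_
  intro θ x m _ h P hP
  obtain ⟨h1, h2⟩ := h P hP
  refine ⟨?_, fun k hk => ?_⟩
  · refine le_trans (le_of_eq ?_) ((le_abs_self _).trans h1)
    unfold number bad
    rw [card_filter]
    push_cast
    refine sum_congr rfl fun p _ => ?_
    by_cases hg : GoodPrime p m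
    · rw [if_neg (not_not.2 hg), if_pos hg]
    · rw [if_pos hg, if_neg hg]
  · have h3 := h2 k hk
    have e1 : ∀ p, a₁ p m = -(ntrace p m) := by
      intro p
      unfold a₁ ntrace
      push_cast
      ring
    have e2 : ∑ p ∈ P, cpow k p m = (-1) ^ k * ∑ p ∈ P.filter (fun p => GoodPrime p m), (a₁ p m ^ k - c₁ k) := by
      rw [sum_filter, mul_sum]
      refine sum_congr rfl fun p _ => ?_
      unfold cpow
      by_cases hg : GoodPrime p m
      · rw [if_pos hg, if_pos hg, e1]
        rcases Nat.even_or_odd k with he | ho
        · rw [he.neg_one_pow, he.neg_pow, one_mul]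
          rfl
        · have h4 : gmom k = 0 := by unfold gmom; rw [if_neg (Nat.not_even_iff_odd.2 ho)]
          have h5 : c₁ k = 0 := h4
          rw [h4, h5, ho.neg_one_pow, ho.neg_pow]
          ring
      · rw [if_neg hg, if_neg hg, mul_zero]
    rw [e2, abs_mul, abs_pow, abs_neg, abs_one, one_pow, one_mul] at h3
    exact h3

end Pool.Agent.Results.MP_3da4c4_nt.NearPowers
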